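import Pool.Agent.KDT.StmtsK

/-!
# Row LVB of the squad KDT: the value formula
-/

set_option autoImplicit false

namespace Pool.Agent.KDT.H24

open Polynomial H58Q Pool.Agent.SZT

section res

variable {K : Type} [Field K]

theorem res_deg {P h : K[X]} (hP : P.Monic) {n : ℕ} (hn : h.natDegree ≤ n) :
    resultant P h P.natDegree n = resultant P h := by
  obtain ⟨k, rfl⟩ := Nat.exists_eq_add_of_le hn
  rw [resultant_add_right_deg _ _ _ _ k le_rfl, hP.coeff_natDegree, one_pow, one_mul]

theorem res_congr {P h h' : K[X]} (hP : P.Monic) (hd : P ∣ h - h') :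
    resultant P h = resultant P h' := by
  obtain ⟨p, hp⟩ := hd
  have h1 : h = h' + P * p := by
    rw [← hp]
    ring
  set n := max (max h.natDegree h'.natDegree) (p.natDegree + P.natDegree) with hn
  have e1 : h.natDegree ≤ n := (le_max_left _ _).trans (le_max_left _ _)
  have e2 : h'.natDegree ≤ n := (le_max_right _ _).trans (le_max_left _ _)
  have e3 : p.natDegree + P.natDegree ≤ n := le_max_right _ _
  rw [← res_deg hP e1, ← res_deg hP e2]
  clear_value n
  rw [h1]
  exact resultant_add_mul_right _ _ _ _ _ e3 le_rfl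

theorem res_mul {P : K[X]} (hP : P.Monic) (h h' : K[X]) :
    resultant P (h * h') = resultant P h * resultant P h' := by
  rw [← res_deg hP natDegree_mul_le]
  exact resultant_mul_right P h h' _ le_rfl

theorem res_pow {P : K[X]} (hP : P.Monic) (h : K[X]) (n : ℕ) :
    resultant P (h ^ n) = resultant P h ^ n := by
  induction n with
  | zero =>
    rw [pow_zero, pow_zero, resultant_one_right, hP.coeff_natDegree, one_pow]
  | succ n ih => rw [pow_succ, pow_succ, res_mul hP, ih]

theorem res_mul_left {P P' : K[X]} (hP : P.Monic) (hP' : P'.Monic) (h : K[X]) :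
    resultant (P * P') h = resultant P h * resultant P' h := by
  have h1 := resultant_mul_left P P' h _ le_rfl
  rw [← hP.natDegree_mul hP'] at h1
  exact h1

theorem res_X_sub_C (a : K) (h : K[X]) : resultant (X - C a) h = h.eval a := by
  have h1 := resultant_X_sub_C_left h h.natDegree a le_rfl
  rw [← natDegree_X_sub_C a] at h1
  exact h1

variable (v : AbsoluteValue K ℝ)

theorem v_neg_one_pow (n : ℕ) : v ((-1) ^ n) = 1 := by
  rw [map_pow, AbsoluteValue.map_neg, map_one, one_pow]

theorem v_comm (P h : K[X]) : v (resultant P h) = v (resultant h P) := by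
  rw [resultant_comm, map_mul, v_neg_one_pow, one_mul]

theorem v_C_mul {P : K[X]} (hP : P.Monic) {c : K} (hc : v c = 1) (h : K[X]) :
    v (resultant P (C c * h)) = v (resultant P h) := by
  rw [res_mul hP, resultant_C_right, hP.coeff_natDegree, one_pow, one_mul, map_mul, map_pow, hc,
    one_pow, one_mul]

end res

section phi

variable {K : Type} [Field K] {f : K[X]}

/-- the substitution `y ↦ V` -/
noncomputable def ph (V : K[X]) (u : Q K f) : K[X] := u.re + V * u.im

theorem ph_mul (V : K[X]) (u w : Q K f) : f - V ^ 2 ∣ ph V (u * w) - ph V u * ph V w := by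
  refine ⟨u.im * w.im, ?_⟩
  unfold ph
  rw [QuadraticAlgebra.re_mul, QuadraticAlgebra.im_mul]
  ring

theorem ph_pow (V : K[X]) (u : Q K f) (n : ℕ) : f - V ^ 2 ∣ ph V (u ^ n) - ph V u ^ n := by
  induction n with
  | zero =>
    refine ⟨0, ?_⟩
    unfold ph
    rw [pow_zero, pow_zero, QuadraticAlgebra.re_one, QuadraticAlgebra.im_one]
    ring
  | succ n ih =>
    have h1 := ph_mul V (u ^ n) u
    rw [pow_succ u n, pow_succ (ph V u) n]
    have h2 : ph V (u ^ n * u) - ph V u ^ n * ph V u
        = (ph V (u ^ n * u) - ph V (u ^ n) * ph V u) + (ph V (u ^ n) - ph V u ^ n) * ph V u := by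
      ring
    rw [h2]
    exact dvd_add h1 (dvd_mul_of_dvd_left ih _)

end phi

section key

variable {K : Type} [Field K]

theorem coprime_of {A U W B : K[X]} (hc : IsCoprime A U) (hd : A ∣ U + W * B) :
    IsCoprime A W := by
  obtain ⟨x, y, hxy⟩ := hc
  obtain ⟨q, hq⟩ := hd
  refine ⟨x + y * q, -(y * B), ?_⟩
  have h1 : U = A * q - W * B := by
    rw [← hq]
    ring
  rw [← hxy, h1]
  ring

/-- the degrees in the Pell equation -/
theorem degs {f A U W : K[X]} {M : ℕ} (hf5 : f.natDegree = 5) (hA : A.Monic)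
    (hA2 : A.natDegree = 2) (hp : U ^ 2 - f * W ^ 2 = A ^ M) (hW : W ≠ 0) :
    W.natDegree + 3 ≤ M ∧ U.natDegree = M ∧ U.leadingCoeff ^ 2 = 1 := by
  have hf0 : f ≠ 0 := by
    rintro rfl
    simp at hf5
  have e1 : (f * W ^ 2).natDegree = 5 + 2 * W.natDegree := by
    rw [natDegree_mul hf0 (pow_ne_zero _ hW), natDegree_pow, hf5]
  have e2 : (A ^ M).natDegree = 2 * M := by
    rw [hA.natDegree_pow, hA2, mul_comm]
  have e3 : (U ^ 2).natDegree = 2 * U.natDegree := natDegree_pow _ _
  have e4 : U ^ 2 = A ^ M + f * W ^ 2 := by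
    rw [← hp]
    ring
  have e5 : (f * W ^ 2).natDegree < (A ^ M).natDegree := by
    by_contra hlt
    have h1 : (A ^ M).natDegree < (f * W ^ 2).natDegree := by omega
    have h2 := natDegree_add_eq_right_of_natDegree_lt h1
    rw [← e4] at h2
    omega
  have h2 := natDegree_add_eq_left_of_natDegree_lt e5
  rw [← e4] at h2
  refine ⟨by omega, by omega, ?_⟩
  have h3 : (f * W ^ 2).degree < (A ^ M).degree := degree_lt_degree e5
  have h4 := leadingCoeff_add_of_degree_lt' h3
  rw [← e4, leadingCoeff_pow, (hA.pow M).leadingCoeff] at h4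
  exact h4

theorem keyD {f A B V U W : K[X]} {M : ℕ} (hf5 : f.natDegree = 5)
    (hA : A.Monic) (hA2 : A.natDegree = 2) (hdB : A ∣ V - B) (hV : V.natDegree ≤ 2)
    (hp : U ^ 2 - f * W ^ 2 = A ^ M) (hc : IsCoprime A U)
    (hUW : A ∣ U + W * B) (hF : (f - V ^ 2).Monic) (v : AbsoluteValue K ℝ) :
    v (resultant (f - V ^ 2) (U - V * W)) = v (resultant A (2 * B)) ^ M := by
  have hAW : IsCoprime A W := coprime_of hc hUW
  have hW : W ≠ 0 := by
    rintro rfl
    rw [isCoprime_zero_right] at hAW
    have := natDegree_eq_zero_of_isUnit hAW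
    omega
  obtain ⟨d1, d2, d3⟩ := degs hf5 hA hA2 hp hW
  obtain ⟨g, hg⟩ : ∃ g, g = U - V * W := ⟨_, rfl⟩
  have hVW : (V * W).natDegree < U.natDegree := by
    have := natDegree_mul_le (p := V) (q := W)
    omega
  have g1 : g.natDegree = M := by
    rw [hg, natDegree_sub_eq_left_of_natDegree_lt hVW, d2]
  have g2 : g.leadingCoeff = U.leadingCoeff := by
    rw [hg]
    exact leadingCoeff_sub_of_degree_lt (degree_lt_degree hVW)
  obtain ⟨c, hcc⟩ : ∃ c, c = g.leadingCoeff := ⟨_, rfl⟩
  have hc2 : c * c = 1 := by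
    rw [hcc, g2, ← sq, d3]
  have hc0 : c ≠ 0 := by
    rintro rfl
    simp at hc2
  have hvc : v c = 1 := by
    have h3 : v c * v c = 1 := by
      rw [← map_mul, hc2, map_one]
    have h4 := v.nonneg c
    nlinarith
  obtain ⟨g₀, hg₀⟩ : ∃ g₀, g₀ = C c * g := ⟨_, rfl⟩
  have hm : g₀.Monic := by
    unfold Monic
    rw [hg₀, leadingCoeff_mul, leadingCoeff_C, ← hcc, hc2]
  have hg₀' : g = C c * g₀ := by
    rw [hg₀, ← mul_assoc, ← C_mul, hc2, C_1, one_mul]
  have g3 : g₀.natDegree = M := by
    rw [hg₀, natDegree_C_mul hc0, g1]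
  have hsq : g₀ * g₀ = g * g := by
    calc g₀ * g₀ = C c * C c * (g * g) := by
          rw [hg₀]
          ring
      _ = g * g := by rw [← C_mul, hc2, C_1, one_mul]
  -- the congruence modulo `g₀`
  have s1 : resultant g₀ (A ^ M) = resultant g₀ (C (-1) * (f - V ^ 2) * W ^ 2) := by
    refine res_congr hm ?_
    have h3 : A ^ M - C (-1) * (f - V ^ 2) * W ^ 2 = g₀ * (C c * (U + V * W)) := by
      have h4 : g₀ * (C c * (U + V * W)) = g * (U + V * W) := by
        rw [hg₀']
        calc g₀ * (C c * (U + V * W)) = C c * g₀ * (U + V * W) := by ring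
          _ = _ := rfl
      rw [h4, hg, ← hp, C_neg, C_1]
      ring
    exact ⟨_, h3⟩
  rw [res_pow hm, res_mul hm, res_mul hm, res_pow hm] at s1
  have s2 : v (resultant g₀ A) ^ M
      = v (resultant g₀ (f - V ^ 2)) * v (resultant g₀ W) ^ 2 := by
    have h3 := congrArg v s1
    rw [map_pow, map_mul, map_mul, map_pow] at h3
    have h4 : v (resultant g₀ (C (-1) : K[X])) = 1 := by
      rw [resultant_C_right, hm.coeff_natDegree, one_pow, one_mul, v_neg_one_pow]
    rw [h4, one_mul] at h3
    exact h3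
  -- the three factors
  have s3 : v (resultant g₀ A) = v (resultant A (2 * U)) := by
    rw [v_comm, hg₀, v_C_mul v hA hvc]
    congr 1
    refine res_congr hA ?_
    have h3 : g - 2 * U = -(U + W * B) - W * (V - B) := by
      rw [hg]
      ring
    rw [h3]
    exact dvd_sub (hUW.neg_right) (dvd_mul_of_dvd_right hdB _)
  have s4 : v (resultant g₀ (f - V ^ 2)) = v (resultant (f - V ^ 2) g) := by
    rw [v_comm, hg₀, v_C_mul v hF hvc]
  have s5 : v (resultant g₀ W) ^ 2 = v (resultant A W) ^ M := by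
    have h3 : resultant W (g₀ * g₀) W.natDegree (g₀.natDegree + g₀.natDegree)
        = resultant W g₀ * resultant W g₀ := resultant_mul_right W g₀ g₀ _ le_rfl
    obtain ⟨p, hpp⟩ : ∃ p, p = f * W - 2 * U * V + V ^ 2 * W := ⟨_, rfl⟩
    have h4 : g₀ * g₀ = A ^ M + W * p := by
      rw [hsq, hg, ← hp, hpp]
      ring
    have h5 : (g₀.natDegree + g₀.natDegree) = (A ^ M).natDegree := by
      rw [hA.natDegree_pow, hA2, g3]
      ring
    have h6 : p.natDegree ≤ M + 2 := by
      rw [hpp]
      refine (natDegree_add_le _ _).trans (max_le ((natDegree_sub_le _ _).trans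
        (max_le ?_ ?_)) ?_)
      · have := natDegree_mul_le (p := f) (q := W)
        omega
      · have h7 := natDegree_mul_le (p := 2 * U) (q := V)
        have h8 := natDegree_mul_le (p := (2 : K[X])) (q := U)
        have h9 : (2 : K[X]).natDegree = 0 := natDegree_ofNat 2
        omega
      · have h7 := natDegree_mul_le (p := V ^ 2) (q := W)
        have h8 : (V ^ 2).natDegree = 2 * V.natDegree := natDegree_pow _ _
        omega
    rw [h4, h5, resultant_add_mul_right _ _ _ _ _ (by rw [← h5]; omega) le_rfl,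
      resultant_pow_right _ _ _ _ le_rfl (by
        rw [hA.leadingCoeff, one_pow]
        exact one_ne_zero)] at h3
    have h7 := congrArg v h3
    rw [map_pow, map_mul] at h7
    rw [v_comm v g₀ W, v_comm v A W, h7, sq]
  have s6 : v (resultant A (2 * U)) = v (resultant A (2 * B)) * v (resultant A W) := by
    have h3 : resultant A (2 * U) = resultant A (C (-1) * (2 * B * W)) := by
      refine res_congr hA ?_
      have h4 : 2 * U - C (-1) * (2 * B * W) = 2 * (U + W * B) := by
        rw [C_neg, C_1]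
        ring
      rw [h4]
      exact dvd_mul_of_dvd_right hUW _
    rw [h3, v_C_mul v hA (by rw [AbsoluteValue.map_neg, map_one]), res_mul hA, map_mul]
  have hr : 0 < v (resultant A W) := v.pos (resultant_ne_zero A W hAW)
  rw [s3, s4, s5, s6, mul_pow] at s2
  rw [← hg]
  exact (mul_right_cancel₀ (pow_ne_zero M hr.ne') s2).symm

end key

/-- row LVB -/
theorem lvb (hMik : SZT.MikStatement) : LvbStatement := by
  intro K _ f A B A' B' V U W U' W' a M h2 hf hf5 hsf hroot hG hG' hT hgen hgen' hrel v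
  have hA : A.Monic := hG.monic
  have hA' : A'.Monic := hG'.monic
  have hXa : (X - C a).Monic := monic_X_sub_C a
  have hFe : f - V ^ 2 = (X - C a) * A * A' := hT.eq
  have hF : (f - V ^ 2).Monic := by
    rw [hFe]
    exact (hXa.mul hA).mul hA'
  have hM := hgen.pos
  obtain ⟨m, hm⟩ := hgen.even
  have hm' : M / 2 = m := by omega
  -- membership
  have mem : ∀ {A B U W : K[X]}, A ∣ B ^ 2 - f → Gen f A B U W M → A ∣ U + W * B := by
    intro A B U W hd hg
    refine (hMik K f A B U W hd).1 ?_
    have h3 : (⟨U, W⟩ : Q K f) ∈ MI f A B ^ M := by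
      rw [hg.gen]
      exact Ideal.mem_span_singleton_self _
    exact Ideal.pow_le_self hg.pos.ne' h3
  have hUW := mem hG.dvd hgen
  have hUW' := mem hG'.dvd hgen'
  have hd := keyD hf5 hA hG.two hT.dvd hT.degV hgen.pell hgen.cop hUW hF v
  -- (a)
  have a1 : resultant A (4 * f) = resultant A (2 * B) ^ 2 := by
    rw [← res_pow hA]
    refine res_congr hA ?_
    have h3 : 4 * f - (2 * B) ^ 2 = -(4 * (B ^ 2 - f)) := by ring
    rw [h3]
    exact (dvd_mul_of_dvd_right hG.dvd _).neg_right
  have hA'F : A' ∣ f - V ^ 2 := by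
    rw [hFe]
    exact dvd_mul_left _ _
  have a2 : resultant A' (4 * f) = resultant A' (2 * V) ^ 2 := by
    rw [← res_pow hA']
    refine res_congr hA' ?_
    have h3 : 4 * f - (2 * V) ^ 2 = 4 * (f - V ^ 2) := by ring
    rw [h3]
    exact dvd_mul_of_dvd_right hA'F _
  have h4C : (4 : K[X]) = C 4 := (map_ofNat C 4).symm
  have h4K : (4 : K) ≠ 0 := by
    have : (4 : K) = 2 * 2 := by norm_num
    rw [this]
    exact mul_ne_zero h2 h2
  have n4 : ∀ {P : K[X]}, IsCoprime P f → resultant P (4 * f) ≠ 0 := by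
    intro P hP
    refine resultant_ne_zero _ _ ?_
    rw [h4C]
    exact (isCoprime_mul_unit_left_right (isUnit_C.2 (isUnit_iff_ne_zero.2 h4K)) _ _).2 hP
  have n1 : v (resultant A (2 * B)) ≠ 0 := by
    rw [v.ne_zero_iff]
    intro h0
    refine n4 hG.cop ?_
    rw [a1, h0]
    ring
  have n2 : v (resultant A' (2 * V)) ≠ 0 := by
    rw [v.ne_zero_iff]
    intro h0
    refine n4 hG'.cop ?_
    rw [a2, h0]
    ring
  -- (b)
  have b1 : v (resultant A' (2 * U')) * v (resultant A' (U - V * W)) * v (A'.eval a) ^ m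
      = v (resultant A' (2 * V)) ^ M := by
    have h3 : resultant A' (2 * U' * (U - V * W) * (X - C a) ^ m) = resultant A' ((2 * V) ^ M) := by
      refine res_congr hA' ?_
      have h4 := ph_pow V (⟨V, 1⟩ : Q K f) M
      rw [← hrel] at h4
      have h5 := ph_mul V ((⟨U', W'⟩ : Q K f) * ⟨U, -W⟩) ⟨(X - C a) ^ (M / 2), 0⟩
      have h6 := ph_mul V (⟨U', W'⟩ : Q K f) ⟨U, -W⟩
      have e1 : ph V (⟨U', W'⟩ : Q K f) = U' + V * W' := rfl
      have e2 : ph V (⟨U, -W⟩ : Q K f) = U - V * W := by
        unfold ph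
        ring
      have e3 : ph V (⟨(X - C a) ^ (M / 2), 0⟩ : Q K f) = (X - C a) ^ m := by
        unfold ph
        rw [hm']
        ring
      have e4 : ph V (⟨V, 1⟩ : Q K f) = 2 * V := by
        unfold ph
        ring
      rw [e4] at h4
      rw [e3] at h5
      rw [e1, e2] at h6
      have h4' := hA'F.trans h4
      have h5' := hA'F.trans h5
      have h6' := hA'F.trans h6
      have h7 : A' ∣ 2 * U' - (U' + V * W') := by
        have h8 : 2 * U' - (U' + V * W') = (U' + W' * B') - W' * (V + B') := by ring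
        rw [h8]
        exact dvd_sub hUW' (dvd_mul_of_dvd_right hT.dvd' _)
      have h9 : 2 * U' * (U - V * W) * (X - C a) ^ m - (2 * V) ^ M
          = (2 * U' - (U' + V * W')) * ((U - V * W) * (X - C a) ^ m)
            - (ph V ((⟨U', W'⟩ : Q K f) * ⟨U, -W⟩) - (U' + V * W') * (U - V * W)) * (X - C a) ^ m
            - (ph V ((⟨U', W'⟩ : Q K f) * ⟨U, -W⟩ * ⟨(X - C a) ^ (M / 2), 0⟩)
              - ph V ((⟨U', W'⟩ : Q K f) * ⟨U, -W⟩) * (X - C a) ^ m)
            + (ph V ((⟨U', W'⟩ : Q K f) * ⟨U, -W⟩ * ⟨(X - C a) ^ (M / 2), 0⟩) - (2 * V) ^ M) := by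
        ring
      rw [h9]
      exact dvd_add (dvd_sub (dvd_sub (dvd_mul_of_dvd_left h7 _) (dvd_mul_of_dvd_left h6' _)) h5')
        h4'
    rw [res_mul hA', res_mul hA', res_pow hA', res_pow hA'] at h3
    have h4 := congrArg v h3
    rw [map_mul, map_mul, map_pow, map_pow] at h4
    have h5 : v (resultant A' (X - C a)) = v (A'.eval a) := by
      rw [v_comm, res_X_sub_C]
    rw [h5] at h4
    exact h4
  -- (c)
  have c1 : v (resultant (f - V ^ 2) (U - V * W))
      = v (U.eval a) * v (resultant A (2 * U)) * v (resultant A' (U - V * W)) := by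
    rw [hFe, res_mul_left (hXa.mul hA) hA', res_mul_left hXa hA, res_X_sub_C, map_mul, map_mul]
    have h3 : (U - V * W).eval a = U.eval a := by
      rw [eval_sub, eval_mul, hT.ev, zero_mul, sub_zero]
    have h4 : resultant A (U - V * W) = resultant A (2 * U) := by
      refine res_congr hA ?_
      have h5 : U - V * W - 2 * U = -(U + W * B) - W * (V - B) := by ring
      rw [h5]
      exact dvd_sub (hUW.neg_right) (dvd_mul_of_dvd_right hT.dvd _)
    rw [h3, h4]
  rw [hd] at c1
  have c2 : v (U.eval a) ^ 2 = v (A.eval a) ^ M := by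
    have h3 := congrArg (eval a) hgen.pell
    rw [eval_sub, eval_mul, eval_pow, eval_pow, eval_pow, IsRoot.def.1 hroot, zero_mul,
      sub_zero] at h3
    rw [← map_pow, ← map_pow, h3]
  have c3 : v (A'.eval a) * v (A.eval a) = v ((derivative f).eval a) := by
    rw [← map_mul, hT.eva]
  -- nonvanishing
  have hM0 : M ≠ 0 := hM.ne'
  have hm0 : m ≠ 0 := by omega
  have p1 : v (resultant A (2 * B)) ^ M ≠ 0 := pow_ne_zero _ n1
  have p2 : v (resultant A' (2 * V)) ^ M ≠ 0 := pow_ne_zero _ n2
  rw [c1] at p1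
  rw [← b1] at p2
  have q1 : v (resultant A' (U - V * W)) ≠ 0 := right_ne_zero_of_mul p1
  have q2 : v (resultant A (2 * U)) ≠ 0 := right_ne_zero_of_mul (left_ne_zero_of_mul p1)
  have q3 : v (U.eval a) ≠ 0 := left_ne_zero_of_mul (left_ne_zero_of_mul p1)
  have q4 : v (A'.eval a) ^ m ≠ 0 := right_ne_zero_of_mul p2
  have q4' : v (A'.eval a) ≠ 0 := fun h => q4 (by rw [h, zero_pow hm0])
  have q5 : v (resultant A' (2 * U')) ≠ 0 := left_ne_zero_of_mul (left_ne_zero_of_mul p2)
  have q6 : v (A.eval a) ≠ 0 := by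
    intro h
    rw [h, zero_pow hM0] at c2
    exact q3 (pow_eq_zero_iff (two_ne_zero) |>.1 c2)
  -- logarithms
  have l1 := congrArg Real.log c1
  rw [Real.log_pow, Real.log_mul (mul_ne_zero q3 q2) q1, Real.log_mul q3 q2] at l1
  have l2 := congrArg Real.log b1
  rw [Real.log_pow, Real.log_mul (mul_ne_zero q5 q1) q4, Real.log_mul q5 q1, Real.log_pow] at l2
  have l3 := congrArg Real.log c2
  rw [Real.log_pow, Real.log_pow] at l3
  have l4 := congrArg Real.log c3
  rw [Real.log_mul q4' q6] at l4
  have hMR : (M : ℝ) = 2 * m := by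
    rw [hm]
    push_cast
    ring
  have hMR0 : (m : ℝ) ≠ 0 := Nat.cast_ne_zero.2 hm0
  unfold Lv
  rw [a1, a2, map_pow, map_pow, Real.log_pow, Real.log_pow, ← l4, hMR]
  rw [hMR] at l1 l2 l3
  push_cast at l1 l2 l3 ⊢
  generalize Real.log (v (resultant A (2 * B))) = x at *
  generalize Real.log (v (resultant A (2 * U))) = y at *
  generalize Real.log (v (resultant A' (U - V * W))) = z at *
  generalize Real.log (v (resultant A' (2 * V))) = x' at *
  generalize Real.log (v (resultant A' (2 * U'))) = y' at *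
  generalize Real.log (v (U.eval a)) = u at *
  generalize Real.log (v (A.eval a)) = α at *
  generalize Real.log (v (A'.eval a)) = α' at *
  field_simp
  linarith

end Pool.Agent.KDT.H24
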