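import Pool.Agent.KDT.StmtsM

/-!
# Row AVO of the squad KDT: avoiding
-/

set_option autoImplicit false

namespace Pool.Agent.KDT.Z.H24

open Polynomial

section pts

variable {F : Type} [Field F] {f : F[X]}

theorem pt_ext {z w : Pt f} (ha : z.a = w.a) (hb : z.b = w.b) : z = w := by
  cases z
  cases w
  simp only at ha hb
  subst ha
  subst hb
  rfl

theorem fin_sq (c : F) : {b : F | b ^ 2 = c}.Finite := by
  by_cases h : ∃ b₀ : F, b₀ ^ 2 = c
  · obtain ⟨b₀, h⟩ := h
    refine (Set.toFinite {b₀, -b₀}).subset ?_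
    intro b hb
    have h1 : b ^ 2 = b₀ ^ 2 := by
      rw [h]
      exact hb
    rcases sq_eq_sq_iff_eq_or_eq_neg.1 h1 with h2 | h2
    · exact Or.inl h2
    · exact Or.inr h2
  · have h1 : {b : F | b ^ 2 = c} = ∅ := by
      ext b
      simp only [Set.mem_ofPred_eq, Set.mem_empty_iff_false, iff_false]
      exact fun hb => h ⟨b, hb⟩
    rw [h1]
    exact Set.finite_empty

theorem finA {S : Set F} (hS : S.Finite) : {z : Pt f | z.a ∈ S}.Finite := by
  have h1 : Set.InjOn (fun z : Pt f => (z.a, z.b)) ((fun z : Pt f => (z.a, z.b)) ⁻¹'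
      (⋃ a ∈ S, ({a} : Set F) ×ˢ {b : F | b ^ 2 = f.eval a})) := by
    intro z _ w _ h
    simp only [Prod.mk.injEq] at h
    exact pt_ext h.1 h.2
  refine ((hS.biUnion fun a _ => (Set.finite_singleton a).prod (fin_sq _)).preimage h1).subset ?_
  intro z hz
  simp only [Set.mem_preimage, Set.mem_iUnion]
  exact ⟨z.a, hz, rfl, z.on⟩

theorem pt_over [IsAlgClosed F] (a : F) : ∃ z : Pt f, z.a = a := by
  obtain ⟨b, hb⟩ := IsAlgClosed.exists_pow_nat_eq (f.eval a) (n := 2) (by norm_num)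
  exact ⟨⟨a, b, hb⟩, rfl⟩

theorem pt_inf [IsAlgClosed F] : Infinite (Pt f) := by
  have : Infinite F := IsAlgClosed.instInfinite
  choose z hz using fun a : F => pt_over (f := f) a
  refine Infinite.of_injective z ?_
  intro a a' h
  rw [← hz a, h, hz a']

end pts

section grp

variable {F : Type} [Field F] {f : F[X]} {J : Type} [AddCommGroup J] {th : Pt f → J}
  {cl : (Fin 4 → F) → J}

theorem fin2 (hJ : JG f J th cl) {δ : J} (hδ : δ ≠ 0) : {z | ∃ z', th z + δ = th z'}.Finite := by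
  have key : ∀ {z z' : Pt f}, th z + δ = th z' → th z + th z'.neg = -δ := by
    intro z z' h
    rw [hJ.th_neg, ← h]
    abel
  by_cases h : ∃ z z', th z + δ = th z'
  · obtain ⟨z, z', h⟩ := h
    refine (Set.toFinite {z, z'.neg}).subset ?_
    rintro w ⟨w', hw⟩
    have h1 : th w + th w'.neg = th z + th z'.neg := by rw [key hw, key h]
    have h2 : th w + th w'.neg ≠ 0 := by
      rw [key hw]
      exact neg_ne_zero.2 hδ
    rcases hJ.th_pair _ _ _ _ h1 h2 with ⟨h3, -⟩ | ⟨h3, -⟩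
    · exact Or.inl h3
    · exact Or.inr h3
  · have h1 : {z | ∃ z', th z + δ = th z'} = ∅ := by
      ext z
      simp only [Set.mem_ofPred_eq, Set.mem_empty_iff_false, iff_false]
      exact fun hz => h ⟨z, hz⟩
    rw [h1]
    exact Set.finite_empty

theorem fin1 (hJ : JG f J th cl) (δ : J) : {z | th z + δ = 0}.Finite := by
  refine Set.Subsingleton.finite ?_
  intro z hz w hw
  have hz' : th z + δ = 0 := hz
  have hw' : th w + δ = 0 := hw
  exact hJ.th_inj _ _ (add_right_cancel (hz'.trans hw'.symm))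

theorem finT (hJ : JG f J th cl) {δ : J} (hδ : δ ≠ 0) : {z | Tht th (th z + δ)}.Finite :=
  ((fin1 hJ δ).union (fin2 hJ hδ)).subset fun _ hz => hz

theorem fin3 {J : Type} [AddCommGroup J] (h : {v : J | v + v = 0}.Finite) (δ : J) :
    {v : J | v + v = δ}.Finite := by
  by_cases h1 : ∃ v₀ : J, v₀ + v₀ = δ
  · obtain ⟨v₀, h1⟩ := h1
    refine (h.preimage (f := fun v => v - v₀) (fun a _ b _ hab => sub_left_inj.1 hab)).subset ?_
    intro v hv
    have hv' : v + v = δ := hv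
    show (v - v₀) + (v - v₀) = 0
    have : (v - v₀) + (v - v₀) = (v + v) - (v₀ + v₀) := by abel
    rw [this, hv', h1, sub_self]
  · have h2 : {v : J | v + v = δ} = ∅ := by
      ext v
      simp only [Set.mem_ofPred_eq, Set.mem_empty_iff_false, iff_false]
      exact fun hv => h1 ⟨v, hv⟩
    rw [h2]
    exact Set.finite_empty

theorem fin4 (hJ : JG f J th cl) (h : {v : J | v + v = 0}.Finite) (τ : J) {z1 z1' : Pt f}
    (hz : z1 ≠ z1') : ({z2 | ∃ w, th z1 + th z2 - τ = th w + th w} ∩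
      {z2 | ∃ w, th z1' + th z2 - τ = th w + th w}).Finite := by
  obtain ⟨δ, hδ⟩ : ∃ δ, δ = th z1 - th z1' := ⟨_, rfl⟩
  have hδ0 : δ ≠ 0 := by
    rw [hδ]
    exact fun h0 => hz (hJ.th_inj _ _ (sub_eq_zero.1 h0))
  have hW : (⋃ v ∈ {v : J | v + v = δ}, {w | ∃ w', th w + (-v) = th w'}).Finite := by
    refine (fin3 h δ).biUnion fun v hv => fin2 hJ ?_
    rintro hv0
    have hv' : v + v = δ := hv
    rw [neg_eq_zero.1 hv0, add_zero] at hv'
    exact hδ0 hv'.symm
  refine ((hW.image fun w => th w + th w + τ - th z1).preimage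
    (f := th) (fun a _ b _ hab => hJ.th_inj _ _ hab)).subset ?_
  rintro z2 ⟨⟨w, hw⟩, ⟨w', hw'⟩⟩
  refine ⟨w, ?_, ?_⟩
  · simp only [Set.mem_iUnion]
    refine ⟨th w - th w', ?_, w', by abel⟩
    show th w - th w' + (th w - th w') = δ
    have h1 : th w - th w' + (th w - th w') = (th w + th w) - (th w' + th w') := by abel
    rw [h1, ← hw, ← hw', hδ]
    abel
  · show th w + th w + τ - th z1 = th z2
    rw [← hw]
    abel

end grp

section phi

variable {F : Type} [Field F] [IsAlgClosed F]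

theorem exr (s p : F) : ∃ a : F, a ^ 2 - s * a + p = 0 := by
  have h1 : (X ^ 2 - C s * X + C p : F[X]).degree ≠ 0 := by
    have h2 : (X ^ 2 - C s * X + C p : F[X]).degree = 2 := by
      compute_degree!
    rw [h2]
    norm_num
  obtain ⟨a, ha⟩ := IsAlgClosed.exists_root _ h1
  refine ⟨a, ?_⟩
  rw [IsRoot.def, eval_add, eval_sub, eval_pow, eval_mul, eval_C, eval_X, eval_C] at ha
  exact ha

theorem ev_ae (Φ : MvPolynomial (Fin 2) F) (p q : F[X]) (a : F) :
    (MvPolynomial.aeval ![p, q] Φ : F[X]).eval a = MvPolynomial.eval ![p.eval a, q.eval a] Φ := by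
  have h1 := MvPolynomial.map_aeval ![p, q] (evalRingHom a) Φ
  rw [coe_evalRingHom] at h1
  rw [h1]
  have h2 : (evalRingHom a).comp (algebraMap F F[X]) = RingHom.id F := by
    ext x
    simp
  rw [h2]
  have h3 : (fun i => (![p, q] i).eval a) = ![p.eval a, q.eval a] := by
    funext i
    fin_cases i <;> rfl
  rw [h3]
  rfl

theorem phiA {Φ : MvPolynomial (Fin 2) F} (hΦ : Φ ≠ 0) :
    {a : F | ∀ y, MvPolynomial.eval ![a + y, a * y] Φ = 0}.Finite := by
  have : Infinite F := IsAlgClosed.instInfinite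
  by_contra hinf
  apply hΦ
  refine MvPolynomial.funext fun x => ?_
  rw [map_zero]
  obtain ⟨a, ha⟩ := exr (x 0) (x 1)
  have h1 : (MvPolynomial.aeval ![C (x 0), C (x 0) * X - X ^ 2] Φ : F[X]) = 0 := by
    refine eq_zero_of_infinite_isRoot _ (Set.Infinite.mono ?_ hinf)
    intro b hb
    show eval b _ = 0
    rw [ev_ae, eval_sub, eval_mul, eval_C, eval_X, eval_pow, eval_X]
    have h2 := hb (x 0 - b)
    have e1 : b + (x 0 - b) = x 0 := by ring
    have e2 : b * (x 0 - b) = x 0 * b - b ^ 2 := by ring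
    rw [e1, e2] at h2
    exact h2
  have h2 := ev_ae Φ (C (x 0)) (C (x 0) * X - X ^ 2) a
  rw [h1, eval_zero, eval_sub, eval_mul, eval_C, eval_X, eval_pow, eval_X] at h2
  have h3 : x = ![x 0, x 0 * a - a ^ 2] := by
    funext i
    fin_cases i
    · rfl
    · show x 1 = x 0 * a - a ^ 2
      linear_combination ha
  rw [h3]
  exact h2.symm

theorem phiB {Φ : MvPolynomial (Fin 2) F} {a : F}
    (ha : ¬ ∀ y, MvPolynomial.eval ![a + y, a * y] Φ = 0) :
    {y : F | MvPolynomial.eval ![a + y, a * y] Φ = 0}.Finite := by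
  have h0 : ∀ y, (MvPolynomial.aeval ![C a + X, C a * X] Φ : F[X]).eval y
      = MvPolynomial.eval ![a + y, a * y] Φ := by
    intro y
    rw [ev_ae, eval_add, eval_mul, eval_C, eval_X]
  by_contra hinf
  apply ha
  have h1 : (MvPolynomial.aeval ![C a + X, C a * X] Φ : F[X]) = 0 := by
    refine eq_zero_of_infinite_isRoot _ (Set.Infinite.mono ?_ hinf)
    intro b hb
    show eval b _ = 0
    rw [h0]
    exact hb
  intro y
  rw [← h0, h1, eval_zero]

end phi

section mum

variable {F : Type} [Field F] {f : F[X]}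

theorem pA_eval (q : Fin 4 → F) (a : F) : (pA q).eval a = a ^ 2 - q 0 * a + q 1 := by
  unfold pA
  rw [eval_add, eval_sub, eval_pow, eval_mul, eval_C, eval_X, eval_C]

theorem pB_eval (q : Fin 4 → F) (a : F) : (pB q).eval a = q 3 * a + q 2 := by
  unfold pB
  rw [eval_add, eval_mul, eval_C, eval_X, eval_C]

theorem pA_split {q : Fin 4 → F} {a : F} (ha : a ^ 2 - q 0 * a + q 1 = 0) :
    pA q = (X - C a) * (X - C (q 0 - a)) := by
  have h1 : q 1 = q 0 * a - a ^ 2 := by linear_combination ha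
  unfold pA
  rw [h1, C_sub, C_sub, C_mul, C_pow]
  ring

/-- the point of `q` at a root of `pA q` -/
theorem on_pt {q : Fin 4 → F} (hq : On f q) {a : F} (ha : a ^ 2 - q 0 * a + q 1 = 0) :
    ((pB q).eval a) ^ 2 = f.eval a := by
  obtain ⟨r, hr⟩ := hq
  have h1 := congrArg (eval a) hr
  rw [eval_sub, eval_pow, eval_mul, pA_eval, ha, zero_mul] at h1
  exact sub_eq_zero.1 h1

/-- the two points of a Mumford vector -/
theorem two_pts [IsAlgClosed F] {J : Type} [AddCommGroup J] {th : Pt f → J}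
    {cl : (Fin 4 → F) → J} (hJ : JG f J th cl) {q : Fin 4 → F} (hq : On f q) :
    ∃ z w : Pt f, z.a ^ 2 - q 0 * z.a + q 1 = 0 ∧ w.a ^ 2 - q 0 * w.a + q 1 = 0 ∧
      z.a + w.a = q 0 ∧ z.a * w.a = q 1 ∧ (pB q).eval z.a = z.b ∧ (pB q).eval w.a = w.b ∧
      cl q = th z + th w := by
  obtain ⟨a, ha⟩ := exr (q 0) (q 1)
  have ha' : (q 0 - a) ^ 2 - q 0 * (q 0 - a) + q 1 = 0 := by linear_combination ha
  refine ⟨⟨a, (pB q).eval a, on_pt hq ha⟩, ⟨q 0 - a, (pB q).eval (q 0 - a), on_pt hq ha'⟩, ha, ha',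
    add_sub_cancel _ _, ?_, rfl, rfl, ?_⟩
  · show a * (q 0 - a) = q 1
    linear_combination -ha
  · exact hJ.split q _ _ hq (pA_split ha) rfl rfl

/-- interpolation -/
theorem interp {J : Type} [AddCommGroup J] {th : Pt f → J}
    {cl : (Fin 4 → F) → J} (hJ : JG f J th cl) {z w : Pt f} (hzw : z.a ≠ w.a) :
    ∃ q : Fin 4 → F, On f q ∧ q 0 = z.a + w.a ∧ q 1 = z.a * w.a ∧ cl q = th z + th w := by
  have hd : z.a - w.a ≠ 0 := sub_ne_zero.2 hzw
  obtain ⟨q, hq⟩ : ∃ q : Fin 4 → F, q = ![z.a + w.a, z.a * w.a,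
    (z.a * w.b - w.a * z.b) / (z.a - w.a), (z.b - w.b) / (z.a - w.a)] := ⟨_, rfl⟩
  have q0 : q 0 = z.a + w.a := by rw [hq]; rfl
  have q1 : q 1 = z.a * w.a := by rw [hq]; rfl
  have q2 : q 2 = (z.a * w.b - w.a * z.b) / (z.a - w.a) := by rw [hq]; rfl
  have q3 : q 3 = (z.b - w.b) / (z.a - w.a) := by rw [hq]; rfl
  have e1 : (pB q).eval z.a = z.b := by
    rw [pB_eval, q2, q3]
    field_simp
    ring
  have e2 : (pB q).eval w.a = w.b := by
    rw [pB_eval, q2, q3]
    field_simp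
    ring
  have e3 : pA q = (X - C z.a) * (X - C w.a) := by
    unfold pA
    rw [q0, q1, C_add, C_mul]
    ring
  have hon : On f q := by
    unfold On
    rw [e3]
    refine IsCoprime.mul_dvd (pairwise_coprime_X_sub_C Function.injective_id hzw) ?_ ?_
    · rw [dvd_iff_isRoot, IsRoot.def, eval_sub, eval_pow, e1, z.on, sub_self]
    · rw [dvd_iff_isRoot, IsRoot.def, eval_sub, eval_pow, e2, w.on, sub_self]
  exact ⟨q, hon, q0, q1, hJ.split q z w hon e3 e1 e2⟩

end mum

/-- row AVO -/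
theorem avo (hTwo : TwoStatement) : AvoStatement := by
  intro F _ _ _ f J _ th cl hf hf5 hsf hJ Φ hΦ t ht
  obtain ⟨⟨h2, -⟩, -⟩ := hTwo F f J th cl hf5 hJ
  obtain ⟨w1, w2, hw1, hw2, hws, hwp, hb1, hb2, hcl⟩ := two_pts hJ ht
  obtain ⟨τ, hτ⟩ : ∃ τ, τ = cl t := ⟨_, rfl⟩
  have : Infinite (Pt f) := pt_inf
  obtain ⟨D, hD⟩ : ∃ D : Set J, D = {-τ, -τ - th w1, -τ + th w1, -τ - th w2, -τ + th w2} :=
    ⟨_, rfl⟩
  have hDf : D.Finite := by
    rw [hD]
    exact Set.toFinite _
  -- the bad first points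
  obtain ⟨B, hB⟩ : ∃ B : Set (Pt f), B = {z | z.a ∈ {a : F | ∀ y,
      MvPolynomial.eval ![a + y, a * y] Φ = 0}} ∪ ⋃ d ∈ D, {z | th z + d = 0} := ⟨_, rfl⟩
  have hBf : B.Finite := by
    rw [hB]
    exact (finA (phiA hΦ)).union (hDf.biUnion fun d _ => fin1 hJ d)
  have hinf : (Bᶜ : Set (Pt f)).Infinite := hBf.infinite_compl
  -- the good first point
  obtain ⟨z1, hz1B, hz1⟩ : ∃ z1, z1 ∉ B ∧
      {z2 | ¬ ∃ w, th z1 + th z2 - τ = th w + th w}.Infinite := by
    obtain ⟨z1, hz1⟩ := hinf.nonempty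
    obtain ⟨z1', hz1', hne⟩ := (hinf.sdiff (Set.finite_singleton z1)).nonempty
    by_cases h : {z2 | ¬ ∃ w, th z1 + th z2 - τ = th w + th w}.Infinite
    · exact ⟨z1, hz1, h⟩
    · refine ⟨z1', hz1', fun h' => ?_⟩
      have h3 : {z2 | ¬ ∃ w, th z1 + th z2 - τ = th w + th w}.Finite := Set.not_infinite.1 h
      have h4 := (h3.union h').union (fin4 hJ h2 τ (z1 := z1) (z1' := z1') (fun h0 => hne h0.symm))
      refine Set.infinite_univ (h4.subset ?_)
      intro z2 _
      by_cases h5 : ∃ w, th z1 + th z2 - τ = th w + th w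
      · by_cases h6 : ∃ w, th z1' + th z2 - τ = th w + th w
        · exact Or.inr ⟨h5, h6⟩
        · exact Or.inl (Or.inr h6)
      · exact Or.inl (Or.inl h5)
  rw [hB] at hz1B
  have hz1a : ¬ ∀ y, MvPolynomial.eval ![z1.a + y, z1.a * y] Φ = 0 := fun h =>
    hz1B (Or.inl h)
  have hz1d : ∀ d ∈ D, th z1 + d ≠ 0 := fun d hd h => hz1B (Or.inr (by
    simp only [Set.mem_iUnion]
    exact ⟨d, hd, h⟩))
  -- the bad second points
  have hCf : ({z : Pt f | z.a ∈ {y : F | MvPolynomial.eval ![z1.a + y, z1.a * y] Φ = 0}} ∪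
      {z : Pt f | z.a ∈ ({z1.a} : Set F)} ∪ ⋃ d ∈ D, {z | Tht th (th z + (th z1 + d))}).Finite :=
    ((finA (phiB hz1a)).union (finA (Set.finite_singleton _))).union
      (hDf.biUnion fun d hd => finT hJ (hz1d d hd))
  obtain ⟨z2, hz2, hz2C⟩ := (hz1.sdiff hCf).nonempty
  have c1 : MvPolynomial.eval ![z1.a + z2.a, z1.a * z2.a] Φ ≠ 0 := fun h =>
    hz2C (Or.inl (Or.inl h))
  have c2 : z1.a ≠ z2.a := fun h => hz2C (Or.inl (Or.inr h.symm))
  have c3 : ∀ d ∈ D, ¬ Tht th (th z1 + th z2 + d) := by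
    intro d hd h
    refine hz2C (Or.inr ?_)
    simp only [Set.mem_iUnion]
    refine ⟨d, hd, ?_⟩
    have e : th z2 + (th z1 + d) = th z1 + th z2 + d := by abel
    show Tht th (th z2 + (th z1 + d))
    rw [e]
    exact h
  obtain ⟨q', hq', q0, q1, hclq⟩ := interp hJ c2
  -- the vector `x`
  have d0 : -τ ∈ D := by rw [hD]; exact Or.inl rfl
  have hx : ∃ x, On f x ∧ th z1 + th z2 - τ = cl x := by
    have h3 := c3 _ d0
    rw [← sub_eq_add_neg] at h3
    rcases hJ.cover (th z1 + th z2 - τ) with h | h | h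
    · exact absurd (Or.inl h) h3
    · exact absurd (Or.inr h) h3
    · exact h
  obtain ⟨x, hxon, hxe⟩ := hx
  obtain ⟨u1, u2, hu1, hu2, hus, hup, hv1, hv2, hux⟩ := two_pts hJ hxon
  have hrr : rr x t ≠ 0 := by
    intro h0
    have h1 : (pA x).eval w1.a * (pA x).eval w2.a = 0 := by
      rw [pA_eval, pA_eval, ← h0]
      unfold rr
      rw [← hws, ← hwp]
      ring
    -- a common root gives a contradiction
    have key : ∀ w u u' : Pt f, (w = w1 ∨ w = w2) → u.a = w.a → cl x = th u + th u' → False := by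
      intro w u u' hw hua hcu
      have h3 : u.b ^ 2 = w.b ^ 2 := by rw [u.on, w.on, hua]
      rcases sq_eq_sq_iff_eq_or_eq_neg.1 h3 with h4 | h4
      · have h5 : u = w := pt_ext hua h4
        refine c3 (-τ - th w) ?_ (Or.inr ⟨u', ?_⟩)
        · rw [hD]
          rcases hw with rfl | rfl
          · exact Or.inr (Or.inl rfl)
          · exact Or.inr (Or.inr (Or.inr (Or.inl rfl)))
        · have h6 : th z1 + th z2 + (-τ - th w) = (th z1 + th z2 - τ) - th w := by abel
          rw [h6, hxe, hcu, h5]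
          abel
      · have h5 : u = w.neg := pt_ext hua h4
        refine c3 (-τ + th w) ?_ (Or.inr ⟨u', ?_⟩)
        · rw [hD]
          rcases hw with rfl | rfl
          · exact Or.inr (Or.inr (Or.inl rfl))
          · exact Or.inr (Or.inr (Or.inr (Or.inr rfl)))
        · have h6 : th z1 + th z2 + (-τ + th w) = (th z1 + th z2 - τ) + th w := by abel
          rw [h6, hxe, hcu, h5, hJ.th_neg]
          abel
    have key2 : ∀ w : Pt f, (w = w1 ∨ w = w2) → (pA x).eval w.a ≠ 0 := by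
      intro w hw h2
      rw [pA_eval] at h2
      have h3 : (w.a - u1.a) * (w.a - u2.a) = 0 := by
        rw [← h2, ← hus, ← hup]
        ring
      rcases mul_eq_zero.1 h3 with h4 | h4
      · exact key w u1 u2 hw (sub_eq_zero.1 h4).symm hux
      · refine key w u2 u1 hw (sub_eq_zero.1 h4).symm ?_
        rw [hux, add_comm]
    rcases mul_eq_zero.1 h1 with h2 | h2
    · exact key2 w1 (Or.inl rfl) h2
    · exact key2 w2 (Or.inr rfl) h2
  have hsum : cl x + cl t = cl q' := by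
    rw [hclq, ← hxe, ← hτ]
    abel
  have hro : ro x t ≠ 0 := by
    intro h0
    rcases hJ.exc x t hxon ht hrr h0 with h | ⟨z, h⟩
    · rw [hsum] at h
      exact hJ.cl_ne q' hq' h
    · rw [hsum] at h
      exact hJ.cl_th q' z hq' h
  obtain ⟨hcon, hce⟩ := hJ.comp x t hxon ht hrr hro
  have hcq : q' = cmp (f.coeff 4) x t := hJ.cl_inj _ _ hq' hcon (hsum.symm.trans hce)
  refine ⟨x, hxon, ?_, hrr, hro, ?_⟩
  · intro h0
    have h1 : (u1.a - u2.a) ^ 2 = 0 := by
      rw [← hus, ← hup] at h0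
      linear_combination h0
    have h3 : u1.a = u2.a := sub_eq_zero.1 (pow_eq_zero_iff (two_ne_zero) |>.1 h1)
    have h4 : u1 = u2 := pt_ext h3 (by rw [← hv1, ← hv2, h3])
    refine hz2 ⟨u1, ?_⟩
    rw [hxe, hux, ← h4]
  · rw [← hcq, q0, q1]
    exact c1

end Pool.Agent.KDT.Z.H24
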